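import Pool.Agent.Q207.Chain

open Cardinal Filter Ordinal

namespace Pool.Agent.Results.MP_ea2126_lc.Yes

/-- `I` is an ideal on `ω`: it does not contain `ω` and is closed under finite unions (including
the empty one) and subsets. -/
structure IsIdeal (I : Set (Set ℕ)) : Prop where
  univ : Set.univ ∉ I
  empty : ∅ ∈ I
  down : ∀ s ∈ I, ∀ t : Set ℕ, t ⊆ s → t ∈ I
  union : ∀ s ∈ I, ∀ t ∈ I, s ∪ t ∈ I

/-- `I` is not properly contained in another ideal on `ω`. -/
def IsMaximalIdeal (I : Set (Set ℕ)) : Prop :=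
  IsIdeal I ∧ ∀ J, IsIdeal J → I ⊆ J → J = I

end Pool.Agent.Results.MP_ea2126_lc.Yes

open Q207.Chain Pool.Agent.Results.MP_ea2126_lc.Yes in
/-- In ZFC there is a strictly increasing sequence of ideals on `ω`, of length `ω₁`, whose union
is a maximal ideal. -/
theorem Pool.Agent.Results.MP_ea2126_lc.Yes.result :
    ∃ J : Ordinal.{0} → Set (Set ℕ), (∀ α < ω₁, IsIdeal (J α)) ∧
      (∀ α β, α < β → β < ω₁ → J α ⊂ J β) ∧ IsMaximalIdeal (⋃ α < ω₁, J α) := by
  obtain ⟨ψ, hψ⟩ := W1_inj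
  obtain ⟨U, p, A, h1, h2, h3, -⟩ := main_exists W1_Iio W1_bdd ψ hψ
  -- the ideal attached to an ordinal
  let K : Ordinal.{0} → Set (Set ℕ) := fun α =>
    {X | ∀ b : W1, α ≤ (ToType.toOrd b : Ordinal.{0}) → X ∉ p b}
  have hord : ∀ α : Ordinal.{0}, α < ω₁ → ∃ b : W1, (ToType.toOrd b : Ordinal.{0}) = α := by
    intro α hα
    refine ⟨ToType.mk ⟨α, hα⟩, ?_⟩
    have : ToType.toOrd (ToType.mk ⟨α, hα⟩) = (⟨α, hα⟩ : Set.Iio (ω₁ : Ordinal.{0})) :=
      ToType.mk.symm_apply_apply _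
    rw [this]
  have hle : ∀ a b : W1, a ≤ b ↔ (ToType.toOrd a : Ordinal.{0}) ≤ (ToType.toOrd b : Ordinal.{0}) := by
    intro a b
    have : a ≤ b ↔ ToType.toOrd a ≤ ToType.toOrd b := ToType.mk.symm.le_iff_le.symm
    rw [this]
    rfl
  have hcompl : ∀ X : Set ℕ, X ∉ U → ∃ a, ∀ b, a ≤ b → X ∉ p b := by
    intro X hX
    obtain ⟨a, ha⟩ := h1 Xᶜ (Ultrafilter.compl_mem_iff_notMem.2 hX)
    exact ⟨a, fun b hb => Ultrafilter.compl_mem_iff_notMem.1 (ha b hb)⟩
  have hunion : (⋃ α < ω₁, K α) = {X : Set ℕ | X ∉ U} := by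
    ext X
    simp only [Set.mem_iUnion, exists_prop]
    constructor
    · rintro ⟨α, hα, hX⟩ hXU
      obtain ⟨a, ha⟩ := h1 X hXU
      obtain ⟨b, hb⟩ := hord α hα
      rcases le_total a b with h | h
      · exact hX b hb.ge (ha b h)
      · refine hX a ?_ (ha a le_rfl)
        rw [← hb]
        exact (hle b a).1 h
    · intro hX
      obtain ⟨a, ha⟩ := hcompl X hX
      refine ⟨(ToType.toOrd a : Ordinal.{0}), (ToType.toOrd a).2, ?_⟩
      intro b hb
      exact ha b ((hle a b).2 hb)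
  refine ⟨K, ?_, ?_, ?_⟩
  · intro α hα
    obtain ⟨w, hw⟩ := hord α hα
    refine ⟨fun h => h w hw.ge univ_mem, ?_, ?_, ?_⟩
    · intro b _ hb
      exact (p b).empty_notMem hb
    · intro s hs t hts b hb ht
      exact hs b hb (mem_of_superset ht hts)
    · intro s hs t ht b hb hst
      rcases Ultrafilter.union_mem_iff.1 hst with h | h
      · exact hs b hb h
      · exact ht b hb h
  · intro α β hαβ hβ
    rw [Set.ssubset_iff_subset_ne]
    refine ⟨fun X hX b hb => hX b (hαβ.le.trans hb), ?_⟩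
    intro heq
    obtain ⟨a, ha⟩ := hord α (hαβ.trans hβ)
    have h5 : A a ∈ K β := by
      intro b hb hAb
      rw [h2, hle, ha] at hAb
      exact absurd (lt_of_lt_of_le hαβ hb) (not_lt.2 hAb)
    rw [← heq] at h5
    exact h5 a ha.ge ((h2 a a).2 le_rfl)
  · rw [hunion]
    refine ⟨⟨fun h => h univ_mem, fun h => U.empty_notMem h, ?_, ?_⟩, ?_⟩
    · intro s hs t hts ht
      exact hs (mem_of_superset ht hts)
    · intro s hs t ht hst
      rcases Ultrafilter.union_mem_iff.1 hst with h | h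
      · exact hs h
      · exact ht h
    · intro L hL hIL
      refine subset_antisymm ?_ hIL
      intro X hX hXU
      have h5 : Xᶜ ∈ L := hIL (Ultrafilter.compl_notMem_iff.2 hXU)
      apply hL.univ
      have h6 := hL.union X hX _ h5
      rwa [Set.union_compl_self] at h6
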